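import Pool.Agent.N929.EZ.Stm
import Pool.Agent.N415.EY.WT

/-!
# WT3: toggling one slot in a window, with the times of the bump
-/

set_option autoImplicit false

namespace Pool.Agent.N87.EZ

open Pool.Agent.H976R2 Pool.Agent.H976R2.Dir Finset
open Pool.Agent.N929.EX Pool.Agent.N929.EY Pool.Agent.N929.EZ Pool.Agent.N415.EY
open scoped Classical

noncomputable section

lemma len_of_SW {n : ℕ} {w : List Dir} (h : w ∈ SW n) : w.length = n := by
  exact (mem_SW.mp h).1

theorem wt3 (h : S_TOG) : S_WT3 := by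
  intro L hL
  obtain ⟨f, g, hf, hg⟩ := h L hL
  have first : ∀ (a b n : ℕ) (w : List Dir) (p : ℤ × ℤ), a ≤ b → b ≤ n → w ∈ SW n →
      p ∈ DD L 1 (a, b) w → p ∉ OO L 1 (a, b) w →
      WStep L a b n w p (f w p) ∧ (∃ k, a < k ∧ k + 1 < b ∧ Bp n k w p (f w p)) ∧
        g (f w p) p = w := by
    intro a b n w p hab hbn hw hp hp'
    obtain ⟨hpL, k, hk, hak, hkb⟩ := free_slot hp hp'
    obtain ⟨h1, h2, h3⟩ := hf 1 (a, b) n w p hab hbn hw hp hp'
    have key : ∀ (s : Fin 3) (c d : ℕ), c ≤ d → d ≤ n → In s (c, d) k 1 →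
        Step L s (c, d) w p (f w p) := fun s c d hcd hdn hI =>
      (hf s (c, d) n w p hcd hdn hw (mem_DD_of hpL hk hI) (notMem_OO_of hk)).2.1
    have hlo : ∀ t, t < k → Lip.PP (f w p) t = Lip.PP w t := by
      intro t ht
      have := (key 1 t b (by omega) hbn (Or.inr (Or.inl ⟨rfl, by simp; omega⟩))).m1
      rwa [up_one] at this
    have hhi : ∀ t, k + 1 < t → t ≤ n → Lip.PP (f w p) (t + 2) = Lip.PP w t := by
      intro t ht htn
      have := (key 0 t t le_rfl htn (Or.inl ⟨rfl, by simp; omega⟩)).m2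
      rwa [up_zero] at this
    have hws : WStep L a b n w p (f w p) := by
      refine ⟨hw, h1, hp, hp', ?_, ?_, ?_, ?_, ?_, ?_, ?_, ?_⟩
      · intro t ht
        exact hlo t (by omega)
      · intro t hbt htn
        exact hhi t (by omega) htn
      · have := h2.dd 1
        rwa [up_one] at this
      · have := h2.os
        rwa [up_one] at this
      · intro c d hcd hda
        have := (key 2 c d hcd (by omega) (Or.inr (Or.inr ⟨rfl, by simp; omega⟩))).dd 1
        rwa [up_two] at this
      · intro c d hcd hda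
        have := (key 2 c d hcd (by omega) (Or.inr (Or.inr ⟨rfl, by simp; omega⟩))).oo 1 (by decide)
        rwa [up_two] at this
      · intro c d hbc hcd hdn
        have := (key 0 c d hcd hdn (Or.inl ⟨rfl, by simp; omega⟩)).dd 1
        rwa [up_zero] at this
      · intro c d hbc hcd hdn
        have := (key 0 c d hcd hdn (Or.inl ⟨rfl, by simp; omega⟩)).oo 1 (by decide)
        rwa [up_zero] at this
    refine ⟨hws, ⟨k, hak, hkb, hw, h1, hk, ?_, hlo, hhi⟩, h3⟩
    have hln : w.length = n := len_of_SW hw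
    have hln' : (f w p).length = n + 2 := len_of_SW h1
    have hpO : p ∈ OO L 1 (a, b + 2) (f w p) := by
      rw [hws.os]; exact mem_insert_self _ _
    unfold Pool.Agent.N929.EX.OO at hpO
    obtain ⟨k', hk', -⟩ := (mem_filter.1 hpO).2
    have hkk : k' = k := by
      obtain ⟨c1, c2⟩ := hk'
      obtain ⟨d1, d2⟩ := hk
      rcases lt_trichotomy k' k with hlt | heq | hgt
      · exfalso
        have e1 := (c2 k' (by omega)).2 ⟨le_rfl, by omega⟩
        rw [hlo k' hlt] at e1
        have := (d2 k' (by omega)).1 e1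
        omega
      · exact heq
      · exfalso
        have e1 := (c2 (k' + 1 + 2) (by omega)).2 ⟨by omega, by omega⟩
        rw [hhi (k' + 1) (by omega) (by omega)] at e1
        have := (d2 (k' + 1) (by omega)).1 e1
        omega
    rwa [hkk] at hk'
  refine ⟨f, g, first, ?_⟩
  intro a b n w' p hab hbn hw' hp
  have hp2 : p ∈ OO L 1 (up 1 (a, b)) w' := by rw [up_one]; exact hp
  obtain ⟨h1, h2, h3⟩ := hg 1 (a, b) n w' p hab hbn hw' hp2
  obtain ⟨h4, h5, -⟩ := first a b n (g w' p) p hab hbn h1 h2.mem h2.nm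
  rw [h3] at h4 h5
  exact ⟨h4, h5, h3⟩

end

end Pool.Agent.N87.EZ
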